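import Pool.Agent.Helper17.IA.StV

/-!
# Project IA, module VSF: random subset in the form used by the vortex
-/

set_option autoImplicit false

namespace Pool.Agent.Helper12.IA

open Finset Pool.Agent.Helper93.IA Pool.Agent.Helper17.IA

private theorem card_sub {n : ℕ} (S : Finset (Fin n)) (p : Fin n → Prop) [DecidablePred p] :
    ((univ : Finset S).filter fun x : S => p (x : Fin n)).card = (S.filter p).card := by
  rw [← card_map (Function.Embedding.subtype fun x => x ∈ S)]
  congr 1
  ext x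
  simp only [mem_map, mem_filter, mem_univ, true_and, Function.Embedding.subtype_apply]
  constructor
  · rintro ⟨y, hy, rfl⟩
    exact ⟨y.2, hy⟩
  · rintro ⟨h1, h2⟩
    exact ⟨⟨x, h1⟩, h2, rfl⟩

private theorem card_sub2 {n : ℕ} (S : Finset (Fin n)) (p : Fin n → Prop) [DecidablePred p]
    (U' : Finset S) :
    (((univ : Finset S).filter fun x : S => p (x : Fin n)) ∩ U').card =
      ((U'.map (Function.Embedding.subtype fun x => x ∈ S)).filter p).card := by
  rw [← card_map (Function.Embedding.subtype fun x => x ∈ S)]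
  congr 1
  ext x
  simp only [mem_map, mem_inter, mem_filter, mem_univ, true_and,
    Function.Embedding.subtype_apply]
  constructor
  · rintro ⟨y, ⟨hy, hy'⟩, rfl⟩
    exact ⟨⟨y, hy', rfl⟩, hy⟩
  · rintro ⟨⟨y, hy, rfl⟩, h2⟩
    exact ⟨y, ⟨h2, hy⟩, rfl⟩

theorem hVSF : StVSF := by
  intro hsub ξ h1 h2
  obtain ⟨n0, h0⟩ := hsub ξ h1 h2
  refine ⟨n0, ?_⟩
  intro n s G H S T1 T2 hs hS hT1 hT2
  obtain ⟨U', hU1, hU2⟩ := h0 S (T1 ⊕ T2) s hs (by rw [Fintype.card_coe, hS])
    (by
      rw [Fintype.card_sum, Fintype.card_coe, Fintype.card_coe, hT1, hT2]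
      omega)
    (fun j => Sum.elim (fun t : T1 => univ.filter fun x : S => ((x : Fin n), (t : Fin n)) ∉ G)
      (fun t : T2 => univ.filter fun x : S => ((t : Fin n), (x : Fin n)) ∉ H) j)
  refine ⟨U'.map (Function.Embedding.subtype fun x => x ∈ S), ?_, ?_, ?_, ?_⟩
  · intro x hx
    rw [mem_map] at hx
    obtain ⟨y, -, rfl⟩ := hx
    exact y.2
  · rw [card_map, hU1]
  · intro t ht
    have h := hU2 (Sum.inl ⟨t, ht⟩)
    simp only [Sum.elim_inl] at h
    rw [card_sub S (fun x => (x, t) ∉ G), card_sub2 S (fun x => (x, t) ∉ G)] at h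
    rw [card_map]
    exact h
  · intro t ht
    have h := hU2 (Sum.inr ⟨t, ht⟩)
    simp only [Sum.elim_inr] at h
    rw [card_sub S (fun x => (t, x) ∉ H), card_sub2 S (fun x => (t, x) ∉ H)] at h
    rw [card_map]
    exact h

end Pool.Agent.Helper12.IA
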